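import Mathlib

set_option autoImplicit false

/-!
# Stability of a coincidence of values under small changes of the pre-Schwarzian
-/

namespace Pool.Agent.H7.BK

open Metric Set Complex

/-- Stability: if `F' = exp b`, `b' = β` on a closed disc and `F p = F q` for two points inside,
then every `G` with `G' = exp a`, `a' = γ` close to `β` has two points with the same value. -/
theorem stab {F b β : ℂ → ℂ} {c p q : ℂ} {R : ℝ}
    (hF : ∀ z ∈ closedBall c R, HasDerivAt F (exp (b z)) z)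
    (hb : ∀ z ∈ closedBall c R, HasDerivAt b (β z) z)
    (hp : p ∈ ball c R) (hq : q ∈ ball c R) (hpq : p ≠ q) (hFpq : F p = F q) :
    ∃ η > 0, ∀ G a γ : ℂ → ℂ, (∀ z ∈ closedBall c R, HasDerivAt G (exp (a z)) z) →
      (∀ z ∈ closedBall c R, HasDerivAt a (γ z) z) →
      (∀ z ∈ closedBall c R, ‖γ z - β z‖ ≤ η) →
      ∃ p' ∈ closedBall c R, ∃ q' ∈ closedBall c R, p' ≠ q' ∧ G p' = G q' := by
  have hR : 0 < R := dist_nonneg.trans_lt (mem_ball.1 hp)
  have hconv : Convex ℝ (closedBall c R) := convex_closedBall c R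
  have hcp : IsCompact (closedBall c R) := isCompact_closedBall c R
  have hcc : c ∈ closedBall c R := mem_closedBall_self hR.le
  have hp' := ball_subset_closedBall hp
  have hq' := ball_subset_closedBall hq
  -- the bound `M`
  have hbc : ContinuousOn (fun z => exp (b z)) (closedBall c R) := fun z hz =>
    ((hb z hz).continuousAt.cexp).continuousWithinAt
  obtain ⟨M, hM⟩ := hcp.exists_bound_of_continuousOn hbc
  have hM0 : 0 ≤ M := (norm_nonneg _).trans (hM c hcc)
  -- the radius `ρ`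
  have h1 : ∀ᶠ z in nhdsWithin p {p}ᶜ, F z ≠ F p :=
    (hF p hp').eventually_ne (exp_ne_zero _)
  obtain ⟨ρ, hρ, hρ1, hρ2, hρ3⟩ : ∃ ρ > 0, closedBall p ρ ⊆ ball c R ∧ ρ < dist p q ∧
      ∀ z ∈ sphere p ρ, F z ≠ F p := by
    rw [eventually_nhdsWithin_iff, Metric.eventually_nhds_iff_ball] at h1
    obtain ⟨ρ1, hρ1, h1⟩ := h1
    obtain ⟨ρ2, hρ2, h2⟩ := Metric.isOpen_ball.mem_nhds hp |> Metric.nhds_basis_closedBall.mem_iff.1
    have hd : 0 < dist p q := dist_pos.2 hpq
    refine ⟨min (ρ1 / 2) (min ρ2 (dist p q / 2)), by positivity, ?_, ?_, ?_⟩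
    · exact (closedBall_subset_closedBall ((min_le_right _ _).trans (min_le_left _ _))).trans h2
    · exact lt_of_le_of_lt ((min_le_right _ _).trans (min_le_right _ _)) (by linarith)
    · intro z hz
      rw [mem_sphere] at hz
      refine h1 z ?_ ?_
      · rw [mem_ball, hz]
        exact lt_of_le_of_lt (min_le_left _ _) (by linarith)
      · rintro rfl
        rw [dist_self] at hz
        have : 0 < min (ρ1 / 2) (min ρ2 (dist z q / 2)) := by positivity
        linarith
  have hsub : sphere p ρ ⊆ closedBall c R :=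
    sphere_subset_closedBall.trans (hρ1.trans ball_subset_closedBall)
  have hFc : ContinuousOn F (closedBall c R) := fun z hz => (hF z hz).continuousAt.continuousWithinAt
  -- the lower bound `m` on the circle
  obtain ⟨m, hm, hm1⟩ : ∃ m > 0, ∀ z ∈ sphere p ρ, m ≤ ‖F z - F p‖ := by
    have hne : (sphere p ρ).Nonempty := NormedSpace.sphere_nonempty.2 hρ.le
    obtain ⟨z0, hz0, hz1⟩ := (isCompact_sphere p ρ).exists_isMinOn hne
      ((hFc.mono hsub).sub continuousOn_const).norm
    exact ⟨‖F z0 - F p‖, norm_pos_iff.2 (sub_ne_zero.2 (hρ3 z0 hz0)), fun z hz => hz1 hz⟩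
  -- the number `η`
  have hden : 0 < 16 * (M + 1) * R ^ 2 := by positivity
  refine ⟨min (1 / R) (m / (16 * (M + 1) * R ^ 2)), by positivity, fun G a γ hG ha hγ => ?_⟩
  set η := min (1 / R) (m / (16 * (M + 1) * R ^ 2)) with hη
  have hη0 : 0 < η := by positivity
  have hη1 : η * R ≤ 1 := by
    calc η * R ≤ 1 / R * R := mul_le_mul_of_nonneg_right (min_le_left _ _) hR.le
      _ = 1 := by field_simp
  have hη2 : 16 * (M + 1) * R ^ 2 * η ≤ m := by
    calc 16 * (M + 1) * R ^ 2 * η ≤ 16 * (M + 1) * R ^ 2 * (m / (16 * (M + 1) * R ^ 2)) :=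
          mul_le_mul_of_nonneg_left (min_le_right _ _) hden.le
      _ = m := by field_simp
  -- `a - b` is nearly constant
  have hh : ∀ z ∈ closedBall c R, ‖(a z - b z) - (a c - b c)‖ ≤ η * R := by
    intro z hz
    have := hconv.norm_image_sub_le_of_norm_hasDerivWithin_le (f := fun z => a z - b z)
      (f' := fun z => γ z - β z) (C := η)
      (fun w hw => ((ha w hw).sub (hb w hw)).hasDerivWithinAt) hγ hcc hz
    refine this.trans (mul_le_mul_of_nonneg_left ?_ hη0.le)
    rw [← dist_eq_norm]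
    exact hz
  -- `H = G / λ`
  set l : ℂ := exp (a c - b c) with hl
  have hl0 : l ≠ 0 := exp_ne_zero _
  have hH : ∀ z ∈ closedBall c R, HasDerivAt (fun z => l⁻¹ * G z) (l⁻¹ * exp (a z)) z :=
    fun z hz => (hG z hz).const_mul _
  have hdiff : ∀ z ∈ closedBall c R, ‖l⁻¹ * exp (a z) - exp (b z)‖ ≤ 2 * (M + 1) * (η * R) := by
    intro z hz
    have e1 : l⁻¹ * exp (a z) - exp (b z) =
        exp (b z) * (exp ((a z - b z) - (a c - b c)) - 1) := by
      rw [hl, ← exp_neg, ← exp_add, mul_sub, ← exp_add, mul_one]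
      congr 2
      ring
    have e2 : ‖exp ((a z - b z) - (a c - b c)) - 1‖ ≤ 2 * ‖(a z - b z) - (a c - b c)‖ :=
      norm_exp_sub_one_le ((hh z hz).trans hη1)
    rw [e1, norm_mul]
    calc ‖exp (b z)‖ * ‖exp ((a z - b z) - (a c - b c)) - 1‖ ≤ M * (2 * (η * R)) :=
          mul_le_mul (hM z hz) (e2.trans (by linarith [hh z hz])) (norm_nonneg _) hM0
      _ ≤ 2 * (M + 1) * (η * R) := by
          have : 0 ≤ η * R := by positivity
          nlinarith
  have hHF : ∀ z ∈ closedBall c R, ‖(l⁻¹ * G z - F z) - (l⁻¹ * G p - F p)‖ ≤ m / 4 := by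
    intro z hz
    have := hconv.norm_image_sub_le_of_norm_hasDerivWithin_le (f := fun z => l⁻¹ * G z - F z)
      (f' := fun z => l⁻¹ * exp (a z) - exp (b z)) (C := 2 * (M + 1) * (η * R))
      (fun w hw => ((hH w hw).sub (hF w hw)).hasDerivWithinAt) hdiff hp' hz
    refine this.trans ?_
    have h2 : ‖z - p‖ ≤ 2 * R := by
      calc ‖z - p‖ = ‖(z - c) - (p - c)‖ := by ring_nf
        _ ≤ ‖z - c‖ + ‖p - c‖ := norm_sub_le _ _
        _ ≤ R + R := add_le_add (by rw [← dist_eq_norm]; exact hz)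
            (by rw [← dist_eq_norm]; exact hp')
        _ = 2 * R := by ring
    calc 2 * (M + 1) * (η * R) * ‖z - p‖ ≤ 2 * (M + 1) * (η * R) * (2 * R) :=
          mul_le_mul_of_nonneg_left h2 (by positivity)
      _ = 16 * (M + 1) * R ^ 2 * η / 4 := by ring
      _ ≤ m / 4 := by linarith
  -- the conclusion
  have hball : closedBall p ρ ⊆ closedBall c R := hρ1.trans ball_subset_closedBall
  have hD : DiffContOnCl ℂ (fun z => l⁻¹ * G z) (ball p ρ) := by
    refine DifferentiableOn.diffContOnCl_ball (U := closedBall p ρ) ?_ Subset.rfl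
    exact fun z hz => (hH z (hball hz)).differentiableAt.differentiableWithinAt
  have hfr : ∃ᶠ z in nhds p, (fun z => l⁻¹ * G z) z ≠ (fun z => l⁻¹ * G z) p := by
    have h3 : ∀ᶠ z in nhdsWithin p {p}ᶜ, l⁻¹ * G z ≠ l⁻¹ * G p :=
      (hH p hp').eventually_ne (mul_ne_zero (inv_ne_zero hl0) (exp_ne_zero _))
    exact h3.frequently.filter_mono nhdsWithin_le_nhds
  have hsph : ∀ z ∈ sphere p ρ, 3 * m / 4 ≤ ‖l⁻¹ * G z - l⁻¹ * G p‖ := by
    intro z hz
    have e1 := hm1 z hz
    have e2 := hHF z (hsub hz)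
    have e3 : ‖F z - F p‖ ≤ ‖l⁻¹ * G z - l⁻¹ * G p‖ +
        ‖(l⁻¹ * G z - F z) - (l⁻¹ * G p - F p)‖ := by
      have : F z - F p = (l⁻¹ * G z - l⁻¹ * G p) -
        ((l⁻¹ * G z - F z) - (l⁻¹ * G p - F p)) := by ring
      rw [this]
      exact norm_sub_le _ _
    linarith
  have himg := hD.ball_subset_image_closedBall hρ hsph hfr
  have hqm : l⁻¹ * G q ∈ ball (l⁻¹ * G p) (3 * m / 4 / 2) := by
    rw [mem_ball, dist_eq_norm]
    have e2 := hHF q hq'
    have e3 : l⁻¹ * G q - l⁻¹ * G p = (l⁻¹ * G q - F q) - (l⁻¹ * G p - F p) := by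
      rw [hFpq]; ring
    rw [e3]
    linarith
  obtain ⟨p', hp1, hp2⟩ := himg hqm
  refine ⟨p', hball hp1, q, hq', ?_, mul_left_cancel₀ (inv_ne_zero hl0) hp2⟩
  rintro rfl
  rw [mem_closedBall, dist_comm] at hp1
  linarith

end Pool.Agent.H7.BK
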